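import Pool.Agent.Helper889_Blow.Two

/-!
# Bisectors of blow-ups

Definitions (in `Pool/Agent/KLev/Halving.lean`, namespace `KLev.Halving`):

* `Line a b c = {p | a * p.1 + b * p.2 = c}`,
* `GeneralPosition P`: no three distinct points of `P` on a common line,
* `IsBisector P L`: `L` is a line through two distinct points of `P` with exactly
  `|P| / 2 - 1` points of `P` on each open side.

In `Pool/Agent/Helper889_Halv/Geo.lean` and `Pool/Agent/Helper889_Blow/Step.lean`, `Main.lean`:

* `ori p q r = (q.2 - p.2) * (r.1 - p.1) + (p.1 - q.1) * (r.2 - p.2)`: the orientation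
  determinant of three points (up to sign),
* `IsBlowup C t P`: `P` is the disjoint union of the clusters `C 0, ..., C (N - 1)` of `t` points
  each; the orientation of a triple of points of three different clusters depends only on the
  clusters; all points of a cluster are strictly on the same side of every line through two points
  of another cluster,
* `Hier l P`: `P` is an iterated blow-up; `Hier [] P` if `P` has one point, `Hier (N :: l) P` if
  `P` is a blow-up with `N` clusters `C i` of `l.prod` points each and `Hier l (C i)` for all `i`.

Proof idea.  A bisector through two points of the same cluster has entire clusters on its sides,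
apart from this one, so it bisects the cluster, and `N` is odd.  If a bisector joins a point `p` of the cluster `C i`
and a point `q` of `C j`, then the numbers of clusters on the two sides differ by at most `1`, so by
Dey's theorem there are at most `29 N^(4/3)` such pairs `(i, j)`; for given `i`, `j` and `p` the
number of points of `C j` before `q` in the angular order around `p` is determined, hence `q` is.
If `N` is even, then the numbers of clusters on the two sides are equal.
-/

set_option autoImplicit false

namespace Pool.Agent.Results.MP_e17eac_co.Blowups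

open KLev.Halving Pool.Agent.Helper889_Blow

open scoped Classical in
/-- Let `P` be a finite set of points of the plane in general position.
1. If `P` is a blow-up with an even number `N` of clusters of `t` points each, then `P` has at most
   `t` times as many bisectors as any set `{q 0, ..., q (N - 1)}` with one point in each cluster.
2. If `P` is a blow-up with `N` clusters `C i` of `t` points each, then the number of bisectors of
   `P` is at most `29 N^(4/3) t` plus the sum of the numbers of bisectors of the `C i`, and at most
   `29 |P| (N^(1/3) + t^(1/3))`.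
3. If `P` is an iterated blow-up with `N 1, N 2, ...` clusters, then `P` has at most
   `29 |P| ∑ (N i)^(1/3)` bisectors.
4. If moreover `2 ≤ N i ≤ B` for all `i`, then `P` has at most `29 B^(1/3) |P| log₂ |P|`
   bisectors. -/
theorem result :
    (∀ (N t : ℕ) (C : Fin N → Finset (ℝ × ℝ)) (P : Finset (ℝ × ℝ)), GeneralPosition P →
      IsBlowup C t P → Even N → ∀ q : Fin N → ℝ × ℝ, (∀ i, q i ∈ C i) →
        {L | IsBisector P L}.ncard ≤ t * {L | IsBisector (Finset.univ.image q) L}.ncard) ∧
    (∀ (N t : ℕ) (C : Fin N → Finset (ℝ × ℝ)) (P : Finset (ℝ × ℝ)), GeneralPosition P →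
      IsBlowup C t P → ({L | IsBisector P L}.ncard : ℝ) ≤
        ∑ i, ({L | IsBisector (C i) L}.ncard : ℝ) + 29 * (N : ℝ) ^ (4 / 3 : ℝ) * t ∧
        ({L | IsBisector P L}.ncard : ℝ) ≤
          29 * P.card * ((N : ℝ) ^ (1 / 3 : ℝ) + (t : ℝ) ^ (1 / 3 : ℝ))) ∧
    (∀ (l : List ℕ) (P : Finset (ℝ × ℝ)), GeneralPosition P → Hier l P →
      ({L | IsBisector P L}.ncard : ℝ) ≤
        29 * P.card * (l.map (fun N : ℕ => (N : ℝ) ^ (1 / 3 : ℝ))).sum) ∧
    (∀ (B : ℕ) (l : List ℕ), (∀ N ∈ l, 2 ≤ N ∧ N ≤ B) → ∀ P : Finset (ℝ × ℝ),
      GeneralPosition P → Hier l P → ({L | IsBisector P L}.ncard : ℝ) ≤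
        29 * (B : ℝ) ^ (1 / 3 : ℝ) * P.card * (Nat.log 2 P.card : ℕ)) :=
  ⟨fun _ _ _ _ hP hB hN q hq => blowup_even hP hB hN q hq,
    fun _ _ _ _ hP hB => ⟨blowup_bound hP hB, two_level hP hB⟩, fun l P hP h => hier_bound l P hP h,
    fun _ l hl P hP h => hier_log l hl P hP h⟩

end Pool.Agent.Results.MP_e17eac_co.Blowups
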