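import Pool.Agent.Helper889_Halv.Parts
import Pool.Agent.Helper889_Halv.Rand2

/-!
# Bisectors of the parts of a partition and of random subsets

Definitions (in `Pool/Agent/KLev/Halving.lean`, namespace `KLev.Halving`):

* `Line a b c = {p | a * p.1 + b * p.2 = c}`,
* `GeneralPosition P`: no three distinct points of `P` on a common line,
* `IsBisector P L`: `L` is a line through two distinct points of `P` with exactly
  `|P| / 2 - 1` points of `P` on each open side.

Proof idea.  Two lines cut the plane into four quadrants, each with about `|P| / 4` points of `P`
(one of them vertical, the other one by the intermediate value theorem for order statistics), and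
every line through two points of `P` has one of the quadrants strictly on one side.  Divide three
times into quadrants: every such line misses at least 37 of the 64 cells.  Let `D` consist of about
`m / 64` points of each cell, `|D| = m`.  A line which bisects `D` or `P \ D` has a whole cell on
each side.  Now move `s (c, d)` points of the deleted set `D` from the cell `d` to the cell `c`, for
every pair `(c, d)` of cells, `0 ≤ s (c, d) ≤ m / 65536`.  This does not change `|D|`, and for a line
with the cell `c` on one side and `d` on the other, for given other parameters, at most one value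
of `s (c, d)` makes the line a bisector of `P \ D`, and at most one makes it a bisector of `D`.
Only the lines whose two sides differ by at most `m` can become bisectors of `P \ D`, and there are
`O(|P|^(4/3) (m + 1)^(2/3))` of them by Dey's argument.  Average over `s`.  This gives part 1, and
part 2 follows by induction on the number of parts.
(3) Let `p = 1 - r`.  The probability that a line with `j` of the other `N` points on one side
becomes a bisector is at most `4 / √(p r N / 2)`, and `p` times the sum of these probabilities over
`j` is at most `1`; apply Dey's bound to the levels with given probability.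
-/

set_option autoImplicit false

namespace Pool.Agent.Results.MP_e17eac_co.Deletions

open KLev.Halving

open scoped Classical in
/-- Let `P` be a finite set of `n` points of the plane in general position.
1. For every `s ≤ n` there is an `s`-point subset `R` of `P` such that `R` has at most
   `5000000 s (n / (n - s + 1))^(1/3)` bisectors and `P \ R` has at most
   `5000000 (n - s) (n / (s + 1))^(1/3)` bisectors.
2. If `k ≥ 2`, `n = f 1 + ... + f k` and `f i ≤ K (f j + 1)` for all `i`, `j`, then `P` is the
   disjoint union of sets `A 1, ..., A k` such that `A i` has `f i` points and at most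
   `5000000 (1 + K)^(1/3) f i` bisectors.
3. If every point of `P` is deleted with probability `r`, independently, `0 < r < 1`, then the
   expected number of bisectors of the remaining set is at most
   `250 ((1 - r) n)^(7/6) / r^(1/6)`. -/
theorem result :
    (∀ P : Finset (ℝ × ℝ), GeneralPosition P → ∀ s : ℕ, s ≤ P.card →
      ∃ R ⊆ P, R.card = s ∧
        ({L | IsBisector R L}.ncard : ℝ) ≤
          5000000 * s * ((P.card : ℝ) / (P.card - s + 1)) ^ (1 / 3 : ℝ) ∧
        ({L | IsBisector (P \ R) L}.ncard : ℝ) ≤
          5000000 * (P.card - s) * ((P.card : ℝ) / (s + 1)) ^ (1 / 3 : ℝ)) ∧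
    (∀ (K : ℝ) (k : ℕ), 0 ≤ K → 2 ≤ k → ∀ (f : Fin k → ℕ) (P : Finset (ℝ × ℝ)),
      GeneralPosition P → P.card = ∑ i, f i → (∀ i j, (f i : ℝ) ≤ K * (f j + 1)) →
      ∃ A : Fin k → Finset (ℝ × ℝ), (∀ i j, i ≠ j → Disjoint (A i) (A j)) ∧
        Finset.univ.biUnion A = P ∧ ∀ i, (A i).card = f i ∧
          ({L | IsBisector (A i) L}.ncard : ℝ) ≤ 5000000 * (1 + K) ^ (1 / 3 : ℝ) * f i) ∧
    (∀ P : Finset (ℝ × ℝ), GeneralPosition P → ∀ r : ℝ, 0 < r → r < 1 →
      ∑ R ∈ P.powerset, (1 - r) ^ R.card * r ^ (P.card - R.card) *
        ({L | IsBisector R L}.ncard : ℝ) ≤
          250 * ((1 - r) * P.card) ^ (7 / 6 : ℝ) / r ^ (1 / 6 : ℝ)) :=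
  ⟨fun P hP _ hs => Pool.Agent.Helper889_Halv.splits P hP hs,
    fun _ _ hK hk f P hP hc hf => Pool.Agent.Helper889_Halv.parts hK hk f P hP hc hf,
    fun P hP _ h0 h1 => Pool.Agent.Helper889_Halv.random_subsets2 P hP h0 h1⟩

end Pool.Agent.Results.MP_e17eac_co.Deletions
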